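import Mathlib
import Pool.Agent.Y794.Sm.Stmts
set_option autoImplicit false

/-! # Smyth's conjecture: the analytic argument -/

namespace Pool.Agent.Y248.Sm

open Filter Topology

/-- sums over fibres -/
theorem fib {T X : Type} (p : X → T) (g : X → ℝ) (hg : ∀ x, 0 < g x) (h : T → ℝ)
    (c E : ℝ) (hf : ∀ t, Summable (fun x : {x // p x = t} => g x) ∧
      |∑' x : {x // p x = t}, g x - c * h t| ≤ E * (c * h t)) (w : T → ℝ)
    (hw : Summable fun t => |w t| * h t) :
    Summable (fun x => w (p x) * g x) ∧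
      Summable (fun t => w t * ∑' x : {x // p x = t}, g x) ∧
      ∑' x, w (p x) * g x = ∑' t, w t * ∑' x : {x // p x = t}, g x := by
  have hth0 : ∀ t, 0 ≤ ∑' x : {x // p x = t}, g x := fun t => tsum_nonneg fun x => (hg x).le
  have hle : ∀ t, ∑' x : {x // p x = t}, g x ≤ (c + E * c) * h t := by
    intro t
    have := (abs_le.1 (hf t).2).2
    linarith
  have hs1 : Summable fun t => |w t| * ∑' x : {x // p x = t}, g x := by
    refine Summable.of_nonneg_of_le (fun t => mul_nonneg (abs_nonneg _) (hth0 t)) (fun t => ?_)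
      (hw.mul_left (c + E * c))
    calc |w t| * ∑' x : {x // p x = t}, g x ≤ |w t| * ((c + E * c) * h t) :=
          mul_le_mul_of_nonneg_left (hle t) (abs_nonneg _)
      _ = (c + E * c) * (|w t| * h t) := by ring
  have hsig : Summable fun q : (Σ t, {x // p x = t}) => |w q.1| * g q.2.1 := by
    rw [summable_sigma_of_nonneg fun q => mul_nonneg (abs_nonneg _) (hg _).le]
    refine ⟨fun t => (hf t).1.mul_left |w t|, ?_⟩
    refine hs1.congr fun t => ?_
    exact (tsum_mul_left (a := |w t|) (f := fun x : {x // p x = t} => g x)).symm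
  have hsig' : Summable fun q : (Σ t, {x // p x = t}) => w q.1 * g q.2.1 := by
    refine Summable.of_norm ?_
    refine hsig.congr fun q => ?_
    rw [Real.norm_eq_abs, abs_mul, abs_of_pos (hg _)]
  have he : (fun x => w (p x) * g x) ∘ (Equiv.sigmaFiberEquiv p) =
      fun q : (Σ t, {x // p x = t}) => w q.1 * g q.2.1 := by
    funext q
    obtain ⟨t, x, hx⟩ := q
    simp only [Function.comp, Equiv.sigmaFiberEquiv, Equiv.coe_fn_mk]
    rw [hx]
  refine ⟨?_, ?_, ?_⟩
  · rw [← (Equiv.sigmaFiberEquiv p).summable_iff, he]; exact hsig'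
  · refine Summable.of_norm ?_
    refine hs1.congr fun t => ?_
    rw [Real.norm_eq_abs, abs_mul, abs_of_nonneg (hth0 t)]
  · rw [← (Equiv.sigmaFiberEquiv p).tsum_eq]
    have h1 : ∑' q : (Σ t, {x // p x = t}), w (p ((Equiv.sigmaFiberEquiv p) q)) *
        g ((Equiv.sigmaFiberEquiv p) q) = ∑' q : (Σ t, {x // p x = t}), w q.1 * g q.2.1 := by
      refine tsum_congr fun q => ?_
      exact congrFun he q
    rw [h1, hsig'.tsum_sigma' fun t => (hf t).1.mul_left (w t)]
    refine tsum_congr fun t => ?_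
    exact tsum_mul_left (a := w t) (f := fun x : {x // p x = t} => g x)

theorem expand (δ s r : ℝ) (hs : 0 < s) (hr : 0 ≤ r) :
    Real.exp (δ * Real.sqrt r) * Real.exp (-s * r) ≤
      Real.exp (δ ^ 2 / (2 * s)) * Real.exp (-(s / 2) * r) := by
  rw [← Real.exp_add, ← Real.exp_add]
  refine Real.exp_le_exp.2 ?_
  have h1 : Real.sqrt r ^ 2 = r := Real.sq_sqrt hr
  have h2 : 0 ≤ (s * Real.sqrt r - δ) ^ 2 := sq_nonneg _
  have h3 : (s * Real.sqrt r - δ) ^ 2 = s ^ 2 * r - 2 * s * (δ * Real.sqrt r) + δ ^ 2 := by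
    rw [sub_sq, mul_pow, h1]; ring
  rw [h3] at h2
  have h4 : δ * Real.sqrt r ≤ (s ^ 2 * r + δ ^ 2) / (2 * s) := by
    rw [le_div_iff₀ (by positivity)]; linarith
  have h5 : (s ^ 2 * r + δ ^ 2) / (2 * s) = s / 2 * r + δ ^ 2 / (2 * s) := by
    field_simp
  rw [h5] at h4
  linarith

/-- one step: the bound at a fixed `s` -/
theorem step {n : ℕ} {T X : Type} (p : Fin n → X → T) (g : X → ℝ) (hg : ∀ x, 0 < g x) (h : T → ℝ)
    (hh : ∀ t, 0 < h t) (hhs : Summable h) (c E : Fin n → ℝ) (hf : ∀ i t, Summable (fun x : {x // p i x = t} => g x) ∧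
      |∑' x : {x // p i x = t}, g x - c i * h t| ≤ E i * (c i * h t))
    (f : Fin n → T → ℝ) (h0 : ∀ t, ∑ i, f i t = 0) (hF : ∀ x, 0 ≤ ∑ i, f i (p i x))
    (hfs : ∀ i, Summable fun t => |f i t| * h t) (i₀ : Fin n) (x₀ : X) :
    (∑ i, f i (p i x₀)) * g x₀ ≤ ∑ i, 2 * (E i * c i) * ∑' t, |f i t| * h t := by
  set th : Fin n → T → ℝ := fun i t => ∑' x : {x // p i x = t}, g x with hth
  -- the total masses
  have hone : ∀ i, Summable (fun x => g x) ∧ Summable (th i) ∧ ∑' x, g x = ∑' t, th i t := by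
    intro i
    have := fib (p i) g hg h (c i) (E i) (hf i) (fun _ => 1) (by simpa using hhs)
    simpa [hth] using this
  set Θ : ℝ := ∑' t, h t with hΘ
  have hΘ0 : 0 < Θ := hhs.tsum_pos (fun t => (hh t).le) (p i₀ x₀) (hh _)
  set S : ℝ := ∑' x, g x with hS
  set d : ℝ := S / Θ with hd
  have hdc : ∀ i, |c i - d| ≤ E i * c i := by
    intro i
    have h1 : |S - c i * Θ| ≤ E i * c i * Θ := by
      rw [(hone i).2.2, hΘ, ← tsum_mul_left, ← (hone i).2.1.tsum_sub (hhs.mul_left _)]
      have h2 : Summable fun t => |th i t - c i * h t| := by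
        refine Summable.of_nonneg_of_le (fun t => abs_nonneg _) (fun t => (hf i t).2) ?_
        exact (hhs.mul_left (c i)).mul_left (E i)
      have h3 := norm_tsum_le_tsum_norm (f := fun t => th i t - c i * h t)
        (by simpa [Real.norm_eq_abs] using h2)
      simp only [Real.norm_eq_abs] at h3
      refine h3.trans ?_
      rw [← tsum_mul_left]
      refine h2.tsum_le_tsum (fun t => ?_) (hhs.mul_left _)
      refine (hf i t).2.trans (le_of_eq ?_)
      ring
    have h4 : c i - d = -(S - c i * Θ) / Θ := by rw [hd]; field_simp; ring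
    rw [h4, abs_div, abs_neg, abs_of_pos hΘ0, div_le_iff₀ hΘ0]
    exact h1
  have hdt : ∀ i t, |th i t - d * h t| ≤ 2 * (E i * c i) * h t := by
    intro i t
    have e : th i t - d * h t = (th i t - c i * h t) + (c i - d) * h t := by ring
    rw [e]
    refine (abs_add_le _ _).trans ?_
    rw [abs_mul, abs_of_pos (hh t)]
    have h1 := (hf i t).2
    have h2 := mul_le_mul_of_nonneg_right (hdc i) (hh t).le
    have h3 : |th i t - c i * h t| ≤ E i * (c i * h t) := h1
    nlinarith
  have hfib := fun i => fib (p i) g hg h (c i) (E i) (hf i) (f i) (hfs i)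
  have hfh : ∀ i, Summable fun t => f i t * h t := by
    intro i
    refine Summable.of_norm ?_
    refine (hfs i).congr fun t => ?_
    rw [Real.norm_eq_abs, abs_mul, abs_of_pos (hh t)]
  have hFs : Summable fun x => (∑ i, f i (p i x)) * g x := by
    have : (fun x => (∑ i, f i (p i x)) * g x) = fun x => ∑ i, f i (p i x) * g x := by
      funext x; rw [Finset.sum_mul]
    rw [this]
    exact summable_sum fun i _ => (hfib i).1
  have hzero : ∑ i, ∑' t, f i t * (d * h t) = 0 := by
    rw [← Summable.tsum_finsetSum fun i _ => ((hfh i).mul_left d).congr fun t => by ring]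
    have : ∀ t, ∑ i, f i t * (d * h t) = 0 := by
      intro t; rw [← Finset.sum_mul, h0 t, zero_mul]
    simp [this]
  calc (∑ i, f i (p i x₀)) * g x₀ ≤ ∑' x, (∑ i, f i (p i x)) * g x :=
        hFs.le_tsum x₀ fun x _ => mul_nonneg (hF x) (hg x).le
    _ = ∑' x, ∑ i, f i (p i x) * g x := by
        refine tsum_congr fun x => ?_
        rw [Finset.sum_mul]
    _ = ∑ i, ∑' x, f i (p i x) * g x := Summable.tsum_finsetSum fun i _ => (hfib i).1
    _ = ∑ i, ∑' t, f i t * th i t := Finset.sum_congr rfl fun i _ => (hfib i).2.2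
    _ = ∑ i, (∑' t, f i t * th i t) - ∑ i, ∑' t, f i t * (d * h t) := by rw [hzero, sub_zero]
    _ = ∑ i, ∑' t, f i t * (th i t - d * h t) := by
        rw [← Finset.sum_sub_distrib]
        refine Finset.sum_congr rfl fun i _ => ?_
        rw [← (hfib i).2.1.tsum_sub (((hfh i).mul_left d).congr fun t => by ring)]
        refine tsum_congr fun t => ?_
        ring
    _ ≤ ∑ i, 2 * (E i * c i) * ∑' t, |f i t| * h t := by
        refine Finset.sum_le_sum fun i _ => ?_
        rw [← tsum_mul_left]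
        have hb : ∀ t, f i t * (th i t - d * h t) ≤ 2 * (E i * c i) * (|f i t| * h t) := by
          intro t
          calc f i t * (th i t - d * h t) ≤ |f i t| * |th i t - d * h t| := by
                rw [← abs_mul]; exact le_abs_self _
            _ ≤ |f i t| * (2 * (E i * c i) * h t) :=
                mul_le_mul_of_nonneg_left (hdt i t) (abs_nonneg _)
            _ = _ := by ring
        refine Summable.tsum_le_tsum hb ?_ ((hfs i).mul_left _)
        have e : (fun t => f i t * (th i t - d * h t)) =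
            fun t => f i t * th i t - d * (f i t * h t) := by funext t; ring
        rw [e]
        exact (hfib i).2.1.sub ((hfh i).mul_left d)

/-- exponential decay beats powers of `1/s` -/
theorem decay (M b : ℝ) (hb : 0 < b) (K : ℕ) :
    Tendsto (fun s : ℝ => M * (Real.exp (-b / s) * (1 / s) ^ K)) (𝓝[>] 0) (𝓝 0) := by
  have h1 : Tendsto (fun x : ℝ => x ^ K * Real.exp (-b * x)) atTop (𝓝 0) := by
    have := Real.tendsto_pow_mul_exp_neg_atTop_nhds_zero K
    have h2 := this.comp (tendsto_id.const_mul_atTop hb)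
    have h3 := h2.const_mul ((1 / b) ^ K)
    rw [mul_zero] at h3
    refine h3.congr fun x => ?_
    simp only [Function.comp, id]
    rw [← mul_assoc, ← mul_pow, show 1 / b * (b * x) = x by field_simp]
    congr 2; ring
  have h2 := (h1.comp tendsto_inv_nhdsGT_zero).const_mul M
  rw [mul_zero] at h2
  refine h2.congr fun s => ?_
  simp only [Function.comp]
  rw [one_div, div_eq_mul_inv]; ring

theorem stAT : Pool.Agent.Y794.Sm.StAT := by
  intro n T X p Q q hq h1 h2 f h0 hF hgrow x₀
  rcases Nat.eq_zero_or_pos n with hn | hn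
  · subst hn; simp
  let i₀ : Fin n := ⟨0, hn⟩
  choose c C A B k hB hA hc using h1
  obtain ⟨C', k', hΘ⟩ := h2
  -- a common lower bound for `B`
  obtain ⟨b, hb0, hbB⟩ : ∃ b : ℝ, 0 < b ∧ ∀ i, b ≤ B i := by
    have : Nonempty (Fin n) := ⟨i₀⟩
    refine ⟨Finset.univ.inf' Finset.univ_nonempty B, ?_, fun i => Finset.inf'_le _ (Finset.mem_univ i)⟩
    rw [Finset.lt_inf'_iff]
    exact fun i _ => hB i
  obtain ⟨Af, hAf⟩ := hgrow (Real.sqrt b) (Real.sqrt_pos.2 hb0)
  have hAf0 : 0 ≤ Af := by
    have := (abs_nonneg _).trans (hAf i₀ (p i₀ x₀))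
    exact nonneg_of_mul_nonneg_left this (Real.exp_pos _)
  refine le_antisymm ?_ (hF x₀)
  set K : ℕ := ∑ i, k i with hK
  have hkK : ∀ i, k i ≤ K := fun i => Finset.single_le_sum (fun i _ => Nat.zero_le _)
    (Finset.mem_univ i)
  set M : ℝ := (∑ i, 2 * (A i * |C i|)) * (Af * (|C'| * 2 ^ k')) with hM
  have hlim : Tendsto (fun s : ℝ => (∑ i, f i (p i x₀)) * Real.exp (-s * Q x₀)) (𝓝[>] 0)
      (𝓝 (∑ i, f i (p i x₀))) := by
    have hcont : Continuous fun s : ℝ => (∑ i, f i (p i x₀)) * Real.exp (-s * Q x₀) := by fun_prop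
    have := (hcont.tendsto 0).mono_left (nhdsWithin_le_nhds (s := Set.Ioi (0 : ℝ)))
    simpa using this
  refine le_of_tendsto_of_tendsto hlim (decay M (b / 2) (by positivity) (K + k')) ?_
  have hev : ∀ᶠ s : ℝ in 𝓝[>] 0, 0 < s ∧ s < 1 := by
    have ha : ∀ᶠ s : ℝ in 𝓝[>] 0, 0 < s := self_mem_nhdsWithin
    have hb' : ∀ᶠ s : ℝ in 𝓝[>] 0, s < 1 := nhdsWithin_le_nhds (Iio_mem_nhds one_pos)
    exact ha.and hb'
  filter_upwards [hev] with s hs
  obtain ⟨hs0, hs1⟩ := hs
  have h1s : 1 ≤ 1 / s := by rw [le_div_iff₀ hs0]; linarith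
  obtain ⟨hΘs, -⟩ := hΘ s hs0 hs1.le
  obtain ⟨hΘ2, hΘ2b⟩ := hΘ (s / 2) (by positivity) (by linarith)
  have hfb : ∀ i t, |f i t| * Real.exp (-s * q t) ≤
      Af * (Real.exp (b / (2 * s)) * Real.exp (-(s / 2) * q t)) := by
    intro i t
    have h3 := expand (Real.sqrt b) s (q t) hs0 (hq t)
    rw [Real.sq_sqrt hb0.le] at h3
    calc |f i t| * Real.exp (-s * q t)
        ≤ (Af * Real.exp (Real.sqrt b * Real.sqrt (q t))) * Real.exp (-s * q t) := by
          gcongr; exact hAf i t
      _ = Af * (Real.exp (Real.sqrt b * Real.sqrt (q t)) * Real.exp (-s * q t)) := by ring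
      _ ≤ _ := by gcongr
  have hmaj : Summable fun t => Af * (Real.exp (b / (2 * s)) * Real.exp (-(s / 2) * q t)) :=
    (hΘ2.mul_left _).mul_left _
  have hfs : ∀ i, Summable fun t => |f i t| * Real.exp (-s * q t) := fun i =>
    Summable.of_nonneg_of_le (fun t => by positivity) (hfb i) hmaj
  have hst := step p (fun x => Real.exp (-s * Q x)) (fun x => Real.exp_pos _)
    (fun t => Real.exp (-s * q t)) (fun t => Real.exp_pos _) hΘs (fun i => c i s)
    (fun i => A i * Real.exp (-B i / s)) (fun i t => (hc i s hs0 hs1.le).2.2 t)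
    f h0 hF hfs i₀ x₀
  refine hst.trans ?_
  have hT : ∀ i, ∑' t, |f i t| * Real.exp (-s * q t) ≤
      Af * (Real.exp (b / (2 * s)) * (|C'| * 2 ^ k' * (1 / s) ^ k')) := by
    intro i
    refine ((hfs i).tsum_le_tsum (hfb i) hmaj).trans ?_
    rw [tsum_mul_left, tsum_mul_left]
    refine mul_le_mul_of_nonneg_left (mul_le_mul_of_nonneg_left ?_ (Real.exp_pos _).le) hAf0
    refine hΘ2b.trans ?_
    have e : (1 / (s / 2)) ^ k' = 2 ^ k' * (1 / s) ^ k' := by
      rw [← mul_pow]; congr 1; field_simp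
    rw [e, mul_assoc]
    exact mul_le_mul_of_nonneg_right (le_abs_self _) (by positivity)
  have hexp : ∀ i, Real.exp (-B i / s) * Real.exp (b / (2 * s)) ≤ Real.exp (-(b / 2) / s) := by
    intro i
    rw [← Real.exp_add]
    refine Real.exp_le_exp.2 ?_
    have h3 : b / s ≤ B i / s := by gcongr; exact hbB i
    have h4 : b / (2 * s) = b / s / 2 := by ring
    have h5 : -(b / 2) / s = -(b / s) / 2 := by ring
    have h6 : -B i / s = -(B i / s) := by ring
    rw [h4, h5, h6]; linarith
  have hterm : ∀ i, 2 * (A i * Real.exp (-B i / s) * c i s) *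
      ∑' t, |f i t| * Real.exp (-s * q t) ≤
      2 * (A i * |C i|) * (Af * (|C'| * 2 ^ k')) *
        (Real.exp (-(b / 2) / s) * (1 / s) ^ (K + k')) := by
    intro i
    have hci : c i s ≤ |C i| * (1 / s) ^ K := by
      refine (hc i s hs0 hs1.le).2.1.trans ?_
      calc C i * (1 / s) ^ k i ≤ |C i| * (1 / s) ^ k i :=
            mul_le_mul_of_nonneg_right (le_abs_self _) (by positivity)
        _ ≤ _ := mul_le_mul_of_nonneg_left (pow_le_pow_right₀ h1s (hkK i)) (abs_nonneg _)
    have hA' := hA i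
    have hc0 := (hc i s hs0 hs1.le).1
    have hS0 : 0 ≤ ∑' t, |f i t| * Real.exp (-s * q t) := tsum_nonneg fun t => by positivity
    calc 2 * (A i * Real.exp (-B i / s) * c i s) * ∑' t, |f i t| * Real.exp (-s * q t)
        ≤ 2 * (A i * Real.exp (-B i / s) * (|C i| * (1 / s) ^ K)) *
          (Af * (Real.exp (b / (2 * s)) * (|C'| * 2 ^ k' * (1 / s) ^ k'))) := by
          gcongr
          exact hT i
      _ = 2 * (A i * |C i|) * (Af * (|C'| * 2 ^ k')) *
          ((Real.exp (-B i / s) * Real.exp (b / (2 * s))) * (1 / s) ^ (K + k')) := by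
          rw [pow_add]; ring
      _ ≤ _ := by
          gcongr
          exact hexp i
  refine (Finset.sum_le_sum fun i _ => hterm i).trans (le_of_eq ?_)
  rw [hM, ← Finset.sum_mul, ← Finset.sum_mul]

end Pool.Agent.Y248.Sm
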